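import Mathlib
import Pool.Agent.Lib.MP_33f69e_ag.Defs
import Pool.Agent.Lib.MP_33f69e_ag.Final

/-!
# MP_33f69e_ag: rational curves of unbounded canonical degree on an elliptic surface

Negative answer to Q1. The surface is the K3 surface `r s = x - 1/x`, `r = s (y - 1/y)` in the
product of four projective lines (the Kummer surface of `E × E`, where `E` has complex
multiplication by the Gaussian integers), blown up in four points; the blow-up is the complete
intersection of three hypersurfaces in the product of five projective lines, with one more
coordinate `t`, `t s x = (x - I) (s - 1)`. The elliptic fibration is the coordinate `y`.

The rational curves: the Kummer surface has a rational curve `Θ = {y = ∞}` which meets the graph of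
multiplication by `(1 + I)^(m+1)` (translated by a point of order two) in `2^m` torsion points. An
automorphism `g` of the K3 surface (a translation in another elliptic fibration) fixes `Θ`
pointwise but is not linear on the abelian surface. The multiplication by `(1 + I)^m` in the first
variable maps the `2^m` points to one point `p`, and because of `g` the image curve has at least
`2^m / 3` different branches at `p`. After blowing up `p` its canonical degree is at least
`2^m / 3`.
-/

namespace Pool.Agent.Results.MP_33f69e_ag.UnboundedCanonicalDegree

open Pool.Agent.Lib.MP_33f69e_ag

/-- There is an elliptic surface over the complex numbers on which the canonical degrees of the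
rational curves are not bounded above. -/
theorem result : ∃ (n : ℕ) (X : CISurface n) (i : Fin (n + 2)), X.IsEllipticFibration i ∧
    ∀ N : ℤ, ∃ C : RationalCurve X, N < C.canonicalDegree :=
  ⟨3, surf, 1, surf_isEllipticFibration, unbounded⟩

end Pool.Agent.Results.MP_33f69e_ag.UnboundedCanonicalDegree
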